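import Pool.Agent.N741.HB.Stm5
import Pool.Agent.Y902.GN.Few
import Pool.Agent.Y902.GN.Seq

/-!
# HK/K6: few solutions of equations of Fermat type

Project HK (helper741); this file by helper717.
-/

set_option autoImplicit false

namespace Pool.Agent.N717.HK

open Filter Pool.Agent.Y902.GN Pool.Agent.N741.HB Pool.Agent.N741.HC Pool.Agent.N741.HK

/-- the exponents of a term -/
def ex {n P : ℕ} (d : ℕ) (f : Fin n → Fin P → ℕ) (i : Fin n) : Fin (P + n + 1) → ℕ :=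
  Fin.append (Fin.append (fun j => d * f i j) (fun i' => if i' = i then 1 else 0))
    (fun _ : Fin 1 => 0)

/-- the bases -/
def yy {K : Type} {n P : ℕ} (y : Fin P → K) (s : Fin n → K) (s0 : K) : Fin (P + n + 1) → K :=
  Fin.append (Fin.append y s) (fun _ : Fin 1 => s0)

theorem prod_ex {K : Type} [Field K] {n P : ℕ} (y : Fin P → K) (s : Fin n → K) (s0 : K) (d : ℕ)
    (f : Fin n → Fin P → ℕ) (i : Fin n) :
    ∏ q, yy y s s0 q ^ ex d f i q = s i * (∏ j, y j ^ f i j) ^ d := by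
  unfold yy ex
  rw [Fin.prod_univ_add, Fin.prod_univ_add]
  simp only [Fin.append_left, Fin.append_right, pow_zero, Finset.prod_const_one, mul_one]
  have h1 : ∏ i' : Fin n, s i' ^ (if i' = i then 1 else 0) = s i := by
    rw [Finset.prod_eq_single i]
    · rw [if_pos rfl, pow_one]
    · intro k _ hk
      rw [if_neg hk, pow_zero]
    · intro h
      exact absurd (Finset.mem_univ i) h
  have h2 : ∏ j, y j ^ (d * f i j) = (∏ j, y j ^ f i j) ^ d := by
    rw [← Finset.prod_pow]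
    refine Finset.prod_congr rfl fun j _ => ?_
    rw [← pow_mul, mul_comm]
  rw [h1, h2, mul_comm]

theorem prod_e0 {K : Type} [Field K] {n P : ℕ} (y : Fin P → K) (s : Fin n → K) (s0 : K)
    (e0 : Fin P → ℕ) :
    ∏ q, yy y s s0 q ^ (Fin.append (Fin.append e0 (fun _ : Fin n => 0)) (fun _ : Fin 1 => 1) :
      Fin (P + n + 1) → ℕ) q = s0 * ∏ j, y j ^ e0 j := by
  unfold yy
  rw [Fin.prod_univ_add, Fin.prod_univ_add]
  simp only [Fin.append_left, Fin.append_right, pow_zero, Finset.prod_const_one, mul_one,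
    Fin.prod_univ_one, pow_one]
  rw [mul_comm]

/-- data of a solution -/
structure Rep (n P κ R : ℕ) (δ : ℝ) (Y : ℕ) (u : Fin n → ℤ) (v : ℤ) (β : Fin n → ℂ)
    (b : Fin (P + n + 1) → ℂ) (f : Fin n → Fin P → ℕ) (e0 : Fin (P + n + 1) → ℕ) (d r : ℕ) :
    Prop where
  d1 : R ≤ d
  d2 : (d : ℝ) ≤ (Y : ℝ) ^ δ
  r1 : R ≤ r
  r2 : (r : ℝ) ≤ (Y : ℝ) ^ δ
  hf : ∀ i j, (f i j : ℝ) ≤ (Y : ℝ) ^ δ
  he0 : ∀ j, (e0 j : ℝ) ≤ (Y : ℝ) ^ δ
  nv : NV u (ex d f) b
  eqk : EqK κ Y u v (ex d f) e0 r b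
  hβ : ∀ i, β i = ∏ j, b (Fin.castAdd 1 (Fin.castAdd n j)) ^ f i j
  hb : ∀ j, b j ≠ 0

theorem rep {n P κ R : ℕ} {δ : ℝ} {Y : ℕ} {u : Fin n → ℤ} {v : ℤ} {β : Fin n → ℂ}
    (hδ : 0 ≤ δ) (hY : 1 ≤ Y) (h : SolF P κ R δ Y u v β) :
    ∃ (b : Fin (P + n + 1) → ℂ) (f : Fin n → Fin P → ℕ) (e0 : Fin (P + n + 1) → ℕ) (d r : ℕ),
      Rep n P κ R δ Y u v β b f e0 d r := by
  obtain ⟨K, _, _, σ, y, s, s0, z, f, e0, d, r, h1, h2, h3, h4, h5, h6, h7, h8, h9, h10, h11, h12,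
    h13, h14⟩ := h
  have hy1 : (1 : ℝ) ≤ (Y : ℝ) ^ δ := Real.one_le_rpow (by exact_mod_cast hY) hδ
  have hy0 : (0 : ℝ) ≤ (Y : ℝ) ^ δ := by linarith
  have hyy : ∀ q, yy y s s0 q ≠ 0 ∧ Height.mulHeight₁ (yy y s s0 q) ≤ (Y : ℝ) := by
    intro q
    unfold yy
    refine Fin.addCases (fun q => ?_) (fun q => ?_) q
    · rw [Fin.append_left]
      refine Fin.addCases (fun j => ?_) (fun i => ?_) q
      · rw [Fin.append_left]
        exact h8 j
      · rw [Fin.append_right]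
        exact h9 i
    · rw [Fin.append_right]
      exact ⟨h10, h11⟩
  refine ⟨fun q => σ (yy y s s0 q), f, Fin.append (Fin.append e0 (fun _ : Fin n => 0))
    (fun _ : Fin 1 => 1), d, r, h2, h3, h4, h5, h6, ?_, ?_, ?_, ?_, ?_⟩
  · intro q
    refine Fin.addCases (fun q => ?_) (fun q => ?_) q
    · rw [Fin.append_left]
      refine Fin.addCases (fun j => ?_) (fun i => ?_) q
      · rw [Fin.append_left]
        exact h7 j
      · rw [Fin.append_right]
        rw [Nat.cast_zero]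
        exact hy0
    · rw [Fin.append_right, Nat.cast_one]
      exact hy1
  · intro J hJ h0
    refine h13 J hJ ?_
    apply σ.injective
    rw [map_zero, ← h0, map_sum]
    refine Finset.sum_congr rfl fun i _ => ?_
    rw [map_mul, map_intCast, ← prod_ex y s s0 d f i, map_prod]
    congr 1
    refine Finset.prod_congr rfl fun q _ => ?_
    rw [map_pow]
  · refine ⟨K, inferInstance, inferInstance, σ, yy y s s0, z, h1, hyy, fun _ => rfl, ?_⟩
    rw [prod_e0]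
    rw [← mul_assoc, ← h14]
    refine Finset.sum_congr rfl fun i _ => ?_
    rw [prod_ex]
  · intro i
    rw [h12 i, map_prod]
    refine Finset.prod_congr rfl fun j _ => ?_
    rw [map_pow]
    unfold yy
    rw [Fin.append_left, Fin.append_left]
  · intro q
    exact (map_ne_zero σ).2 (hyy q).1

theorem big_exp {α : Type*} {Y : ℕ → ℕ} {T : ℕ → Finset α} (h : Big Y T) :
    ∃ ε : ℝ, 0 < ε ∧ ∀ᶠ ν in (Uf : Filter ℕ), (Y ν : ℝ) ^ ε < ((T ν).card : ℝ) := by
  obtain ⟨m, hm⟩ := h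
  have hm0 : m ≠ 0 := by
    rintro rfl
    obtain ⟨ν, hν⟩ := hm.exists
    simp at hν
  have hmp : (0 : ℝ) < m := by
    have : 0 < m := Nat.pos_of_ne_zero hm0
    exact_mod_cast this
  refine ⟨1 / m, by positivity, ?_⟩
  filter_upwards [hm] with ν h1
  have h2 : (Y ν : ℝ) < ((T ν).card : ℝ) ^ m := by
    have : Y ν < (T ν).card ^ m := by omega
    exact_mod_cast this
  calc (Y ν : ℝ) ^ (1 / (m : ℝ)) < (((T ν).card : ℝ) ^ m) ^ (1 / (m : ℝ)) :=
        Real.rpow_lt_rpow (by positivity) h2 (by positivity)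
    _ = ((T ν).card : ℝ) := by
        rw [← Real.rpow_natCast, ← Real.rpow_mul (by positivity)]
        rw [mul_one_div_cancel hmp.ne', Real.rpow_one]

/-- the difference of two exponent vectors -/
def aa {n P : ℕ} (f : Fin n → Fin P → ℕ) (p : Fin n × Fin n) : Fin (P + n + 1) → ℤ :=
  Fin.append (Fin.append (fun j => (f p.1 j : ℤ) - f p.2 j) (fun _ : Fin n => 0))
    (fun _ : Fin 1 => 0)

theorem smul_aa {n P : ℕ} (d : ℕ) (f : Fin n → Fin P → ℕ) (p : Fin n × Fin n) :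
    d • aa f p = (fun q => (ex d f p.1 q : ℤ) - (ex d f p.2 q : ℤ)) +
      (-(Pi.single (Fin.castAdd 1 (Fin.natAdd P p.1)) 1) +
        Pi.single (Fin.castAdd 1 (Fin.natAdd P p.2)) 1) := by
  funext q
  rw [Pi.smul_apply, Pi.add_apply, Pi.add_apply, Pi.neg_apply]
  unfold aa ex
  refine Fin.addCases (fun q => ?_) (fun q => ?_) q
  · rw [Fin.append_left, Fin.append_left, Fin.append_left]
    refine Fin.addCases (fun j => ?_) (fun i => ?_) q
    · rw [Fin.append_left, Fin.append_left, Fin.append_left, Pi.single_eq_of_ne,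
        Pi.single_eq_of_ne]
      · push_cast
        rw [nsmul_eq_mul]
        ring
      · intro h
        have h1 := congrArg Fin.val h
        simp only [Fin.val_castAdd, Fin.val_natAdd] at h1
        have := j.2
        omega
      · intro h
        have h1 := congrArg Fin.val h
        simp only [Fin.val_castAdd, Fin.val_natAdd] at h1
        have := j.2
        omega
    · rw [Fin.append_right, Fin.append_right, Fin.append_right]
      have hs : ∀ k : Fin n, (Pi.single (Fin.castAdd 1 (Fin.natAdd P k)) (1 : ℤ) :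
          Fin (P + n + 1) → ℤ) (Fin.castAdd 1 (Fin.natAdd P i)) = if i = k then 1 else 0 := by
        intro k
        by_cases hk : i = k
        · rw [hk, if_pos rfl, Pi.single_eq_same]
        · rw [if_neg hk, Pi.single_eq_of_ne]
          intro h
          apply hk
          have h1 := congrArg Fin.val h
          simp only [Fin.val_castAdd, Fin.val_natAdd] at h1
          exact Fin.ext (by omega)
      rw [hs, hs]
      push_cast
      rw [smul_zero]
      ring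
  · rw [Fin.append_right, Fin.append_right, Fin.append_right, Pi.single_eq_of_ne,
      Pi.single_eq_of_ne]
    · simp
    · intro h
      have h1 := congrArg Fin.val h
      simp only [Fin.val_castAdd, Fin.val_natAdd] at h1
      have := p.2.2
      omega
    · intro h
      have h1 := congrArg Fin.val h
      simp only [Fin.val_castAdd, Fin.val_natAdd] at h1
      have := p.1.2
      omega

theorem prod_aa {n P : ℕ} (f : Fin n → Fin P → ℕ) (p : Fin n × Fin n) (b : Fin (P + n + 1) → ℂ)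
    (hb : ∀ q, b q ≠ 0) :
    ∏ q, b q ^ aa f p q = (∏ j, b (Fin.castAdd 1 (Fin.castAdd n j)) ^ f p.1 j) /
      (∏ j, b (Fin.castAdd 1 (Fin.castAdd n j)) ^ f p.2 j) := by
  unfold aa
  rw [Fin.prod_univ_add, Fin.prod_univ_add]
  simp only [Fin.append_left, Fin.append_right, zpow_zero, Finset.prod_const_one, mul_one]
  rw [← Finset.prod_div_distrib]
  refine Finset.prod_congr rfl fun j _ => ?_
  rw [zpow_sub₀ (hb _), zpow_natCast, zpow_natCast]

theorem rk2 (h1 : S_ult) : S_rk2 := by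
  classical
  intro n P κ ε hn hε
  by_contra hcon
  push Not at hcon
  have hseq := fun ν : ℕ => hcon ν (1 / (2 * ((ν : ℝ) + 1))) (by positivity)
  choose Y hY1 u v hu hv T hT hdist hc using hseq
  have hY1' : ∀ ν, (1 : ℝ) ≤ (Y ν : ℝ) := fun ν => by exact_mod_cast hY1 ν
  have hδ : ∀ ν : ℕ, (0 : ℝ) ≤ 1 / (2 * ((ν : ℝ) + 1)) := fun ν => by positivity
  have hδ2 : ∀ ν : ℕ, 1 / (2 * ((ν : ℝ) + 1)) ≤ 1 / ((ν : ℝ) + 1) := fun ν => by
    apply one_div_le_one_div_of_le (by positivity)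
    have : (0 : ℝ) ≤ (ν : ℝ) := Nat.cast_nonneg _
    linarith
  have hpow : ∀ ν, (Y ν : ℝ) ^ (1 / (2 * ((ν : ℝ) + 1))) ≤ (Y ν : ℝ) ^ (1 / ((ν : ℝ) + 1)) :=
    fun ν => Real.rpow_le_rpow_of_exponent_le (hY1' ν) (hδ2 ν)
  choose! b f e0 d r hrep using fun ν β (h : β ∈ T ν) => rep (hδ ν) (hY1 ν) (hT ν β h)
  -- `Y` is large
  have hYlarge : ∀ ν, ν ≤ Y ν := by
    intro ν
    have k1 : (1 : ℝ) ≤ (Y ν : ℝ) ^ ε := Real.one_le_rpow (hY1' ν) hε.le
    have k2 : 0 < (T ν).card := by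
      have : (0 : ℝ) < ((T ν).card : ℝ) := by linarith [hc ν]
      exact_mod_cast this
    obtain ⟨β, hβ⟩ := Finset.card_pos.1 k2
    have k3 := (hrep ν β hβ).d1
    have k4 := (hrep ν β hβ).d2
    have k5 : (d ν β : ℝ) ≤ (Y ν : ℝ) := by
      refine k4.trans ?_
      calc (Y ν : ℝ) ^ (1 / (2 * ((ν : ℝ) + 1))) ≤ (Y ν : ℝ) ^ (1 : ℝ) := by
            apply Real.rpow_le_rpow_of_exponent_le (hY1' ν)
            rw [div_le_one (by positivity)]
            have : (0 : ℝ) ≤ (ν : ℝ) := Nat.cast_nonneg _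
            linarith
        _ = (Y ν : ℝ) := Real.rpow_one _
    have k6 : d ν β ≤ Y ν := by exact_mod_cast k5
    omega
  have hY : ∀ m : ℕ, ∀ᶠ ν in (Uf : Filter ℕ), m ≤ Y ν := fun m =>
    (ev_ge m).mono fun ν hν => hν.trans (hYlarge ν)
  have hbig : Big Y T := big_of_card hε (hY 2) (Filter.Eventually.of_forall hc)
  -- constant `d`
  obtain ⟨T1, hT1, hT1b, hT1c⟩ := hbig.fiber (fun ν β => d ν β)
    (fun ν => Finset.range (⌊((1 : ℕ) : ℝ) * (Y ν : ℝ) ^ (1 / ((ν : ℝ) + 1))⌋₊ + 1))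
    (Filter.Eventually.of_forall fun ν β h => by
      rw [Finset.mem_range]
      have k1 : (d ν β : ℝ) ≤ ((1 : ℕ) : ℝ) * (Y ν : ℝ) ^ (1 / ((ν : ℝ) + 1)) := by
        rw [Nat.cast_one, one_mul]
        exact ((hrep ν β h).d2).trans (hpow ν)
      exact Nat.lt_succ_of_le (Nat.le_floor k1)) (by
      refine (few_rpow hY 1).mono (Filter.Eventually.of_forall fun ν => ?_)
      rw [Finset.card_range])
  obtain ⟨d0, hd0⟩ : ∃ d0 : ℕ → ℕ, ∀ᶠ ν in (Uf : Filter ℕ), ν ≤ d0 ν ∧ ∀ β ∈ T1 ν, d ν β = d0 ν := by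
    have k1 : ∀ᶠ ν in (Uf : Filter ℕ), ∃ q : ℕ, ν ≤ q ∧ ∀ β ∈ T1 ν, d ν β = q := by
      filter_upwards [hT1c, hT1b.nonempty, hT1] with ν a b c
      obtain ⟨p0, hp0⟩ := b
      exact ⟨d ν p0, (hrep ν p0 (c hp0)).d1, fun p hp => a p hp p0 hp0⟩
    exact k1.choice
  obtain ⟨ε', hε', hcard⟩ := big_exp hT1b
  -- equal exponents
  have hfeq : ∀ᶠ ν in (Uf : Filter ℕ), ∀ τ ∈ T1 ν, ∀ τ' ∈ T1 ν,
      ex (d ν τ) (f ν τ) = ex (d ν τ') (f ν τ') → f ν τ = f ν τ' := by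
    filter_upwards [hd0, ev_ge 1] with ν k1 k2 τ hτ τ' hτ' he
    funext i j
    have k3 := congrFun (congrFun he i) (Fin.castAdd 1 (Fin.castAdd n j))
    unfold ex at k3
    rw [Fin.append_left, Fin.append_left, Fin.append_left, Fin.append_left, k1.2 τ hτ,
      k1.2 τ' hτ'] at k3
    exact Nat.eq_of_mul_eq_mul_left (by omega) k3
  obtain ⟨T', C, H, e', -, hT', hT'b, he', hH, hkey⟩ := h1 n (P + n + 1) κ ε' hn hε' Y
    (Fin n → ℂ) T1 u v (fun ν β => ex (d ν β) (f ν β)) e0 r b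
    (hcard.mono fun ν k => ⟨hY1 ν, k⟩)
    (Filter.Eventually.of_forall fun ν i => ⟨(hu ν i).1, (hu ν i).2.trans
      (Real.exp_le_exp.2 (hpow ν))⟩)
    (Filter.Eventually.of_forall fun ν => (hv ν).trans (Real.exp_le_exp.2 (hpow ν)))
    (by
      filter_upwards [hT1] with ν k1 β hβ
      have hr := hrep ν β (k1 hβ)
      refine ⟨hr.r1, hr.r2.trans (hpow ν), ?_, fun j => (hr.he0 j).trans (hpow ν), hr.nv, hr.eqk⟩
      intro i q
      have hy1 : (1 : ℝ) ≤ (Y ν : ℝ) ^ (1 / ((ν : ℝ) + 1)) :=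
        Real.one_le_rpow (hY1' ν) (by positivity)
      unfold ex
      refine Fin.addCases (fun q => ?_) (fun q => ?_) q
      · rw [Fin.append_left]
        refine Fin.addCases (fun j => ?_) (fun i' => ?_) q
        · rw [Fin.append_left]
          push_cast
          calc (d ν β : ℝ) * (f ν β i j : ℝ) ≤ (Y ν : ℝ) ^ (1 / (2 * ((ν : ℝ) + 1))) *
                (Y ν : ℝ) ^ (1 / (2 * ((ν : ℝ) + 1))) :=
                mul_le_mul hr.d2 (hr.hf i j) (by positivity) (by positivity)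
            _ = (Y ν : ℝ) ^ (1 / ((ν : ℝ) + 1)) := by
                rw [← Real.rpow_add (by linarith [hY1' ν])]
                congr 1
                field_simp
                norm_num
        · rw [Fin.append_right]
          split_ifs
          · rw [Nat.cast_one]
            exact hy1
          · rw [Nat.cast_zero]
            linarith
      · rw [Fin.append_right, Nat.cast_zero]
        linarith)
    (by
      filter_upwards [hfeq, hT1] with ν k1 k2 τ hτ τ' hτ' he hb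
      have k3 := k1 τ hτ τ' hτ' he
      funext i
      rw [(hrep ν τ (k2 hτ)).hβ i, (hrep ν τ' (k2 hτ')).hβ i, k3, hb])
  -- the common exponents
  obtain ⟨f', hf'⟩ : ∃ f' : ℕ → Fin n → Fin P → ℕ, ∀ᶠ ν in (Uf : Filter ℕ),
      (∀ τ ∈ T' ν, f ν τ = f' ν) ∧ e' ν = ex (d0 ν) (f' ν) := by
    have k1 : ∀ᶠ ν in (Uf : Filter ℕ), ∃ g : Fin n → Fin P → ℕ,
        (∀ τ ∈ T' ν, f ν τ = g) ∧ e' ν = ex (d0 ν) g := by
      filter_upwards [hfeq, hT', hT'b.nonempty, he', hd0] with ν a b c k5 k6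
      obtain ⟨p0, hp0⟩ := c
      refine ⟨f ν p0, fun τ hτ => ?_, ?_⟩
      · exact a τ (b hτ) p0 (b hp0) ((k5 τ hτ).trans (k5 p0 hp0).symm)
      · rw [← k5 p0 hp0, k6.2 p0 (b hp0)]
    exact k1.choice
  have hH0 : ∀ p : Fin n × Fin n, ∀ᶠ ν in (Uf : Filter ℕ), H ν (aa (f' ν) p) = 0 := by
    intro p
    filter_upwards [hf', hH, hd0, ev_ge (3 * C + 1)] with ν k1 k2 k3 k4
    obtain ⟨q1, q2, q3, q4, q5⟩ := k2
    have k5 := q2 (d0 ν) (aa (f' ν) p)
    rw [smul_aa] at k5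
    have k6 := q1 (fun q => (ex (d0 ν) (f' ν) p.1 q : ℤ) - (ex (d0 ν) (f' ν) p.2 q : ℤ))
      (-(Pi.single (Fin.castAdd 1 (Fin.natAdd P p.1)) 1) +
        Pi.single (Fin.castAdd 1 (Fin.natAdd P p.2)) 1)
    have k7 := q1 (-(Pi.single (Fin.castAdd 1 (Fin.natAdd P p.1)) 1))
      (Pi.single (Fin.castAdd 1 (Fin.natAdd P p.2)) 1)
    have k8 := q5 p.1 p.2
    rw [k1.2] at k8
    rw [q3] at k7
    have k9 := q4 (Fin.castAdd 1 (Fin.natAdd P p.1))
    have k10 := q4 (Fin.castAdd 1 (Fin.natAdd P p.2))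
    have k11 : d0 ν * H ν (aa (f' ν) p) ≤ 3 * C := by
      rw [← k5]
      omega
    by_contra hne
    have k12 : 1 ≤ H ν (aa (f' ν) p) := Nat.one_le_iff_ne_zero.2 hne
    have k13 : d0 ν * 1 ≤ d0 ν * H ν (aa (f' ν) p) := Nat.mul_le_mul_left _ k12
    have k14 := k3.1
    omega
  obtain ⟨T3, hT3, hT3b, hT3c⟩ := Big.const_all (Y := Y) (Finset.univ : Finset (Fin n × Fin n))
    (fun p ν τ => ∏ q, b ν τ q ^ aa (f' ν) p q) hT'b (fun p _ A' hA' hA'b => by
      obtain ⟨A3, g1, g2, g3⟩ := hkey (fun ν => aa (f' ν) p) (hH0 p) A' hA' hA'b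
      exact ⟨A3, g1, g2, g3⟩)
  have hT3c' : ∀ᶠ ν in (Uf : Filter ℕ), ∀ p : Fin n × Fin n, ∀ τ ∈ T3 ν, ∀ τ' ∈ T3 ν,
      ∏ q, b ν τ q ^ aa (f' ν) p q = ∏ q, b ν τ' q ^ aa (f' ν) p q :=
    Filter.eventually_all.2 fun p => hT3c p (Finset.mem_univ p)
  obtain ⟨ν, k1, k2, k3, k4, k5, k6⟩ := (hT3b.one_lt.and (hT3.and (hT'.and (hT1.and
    (hf'.and hT3c'))))).exists
  obtain ⟨τ, hτ, τ', hτ', hne⟩ := Finset.one_lt_card.1 k1
  apply hne
  have m1 : τ ∈ T ν := k4 (k3 (k2 hτ))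
  have m2 : τ' ∈ T ν := k4 (k3 (k2 hτ'))
  refine hdist ν τ m1 τ' m2 fun i i' => ?_
  have g1 := k6 (i, i') τ hτ τ' hτ'
  rw [prod_aa _ _ _ (hrep ν τ m1).hb, prod_aa _ _ _ (hrep ν τ' m2).hb] at g1
  have g2 : ∀ i, τ i = ∏ j, b ν τ (Fin.castAdd 1 (Fin.castAdd n j)) ^ f' ν i j := by
    intro i
    rw [(hrep ν τ m1).hβ i, k5.1 τ (k2 hτ)]
  have g3 : ∀ i, τ' i = ∏ j, b ν τ' (Fin.castAdd 1 (Fin.castAdd n j)) ^ f' ν i j := by
    intro i
    rw [(hrep ν τ' m2).hβ i, k5.1 τ' (k2 hτ')]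
  have g4 : ∏ j, b ν τ (Fin.castAdd 1 (Fin.castAdd n j)) ^ f' ν i' j ≠ 0 :=
    Finset.prod_ne_zero_iff.2 fun j _ => pow_ne_zero _ ((hrep ν τ m1).hb _)
  have g5 : ∏ j, b ν τ' (Fin.castAdd 1 (Fin.castAdd n j)) ^ f' ν i' j ≠ 0 :=
    Finset.prod_ne_zero_iff.2 fun j _ => pow_ne_zero _ ((hrep ν τ' m2).hb _)
  rw [g2 i, g2 i', g3 i, g3 i']
  exact (div_eq_div_iff g4 g5).1 g1

end Pool.Agent.N717.HK
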